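import Mathlib
import Pool.Agent.W252.BWFinal
import Pool.Agent.W252.GelFinal
import Pool.Agent.H340R2.LW

/-!
# The theorems of Brownawell-Waldschmidt and Gel'fond applied to families through `e ^ e`
-/

set_option autoImplicit false

namespace Pool.Agent.Helper305_BW

open Complex

/-- `z` is algebraic over the field `ℚ(θ)`. -/
def AlgOver (θ z : ℂ) : Prop := IsAlgebraic (IntermediateField.adjoin ℚ {θ}) z

variable {θ : ℂ}

theorem AlgOver.add {u v : ℂ} (hu : AlgOver θ u) (hv : AlgOver θ v) : AlgOver θ (u + v) :=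
  IsAlgebraic.add hu hv

theorem AlgOver.mul {u v : ℂ} (hu : AlgOver θ u) (hv : AlgOver θ v) : AlgOver θ (u * v) :=
  IsAlgebraic.mul hu hv

theorem AlgOver.inv {u : ℂ} (hu : AlgOver θ u) : AlgOver θ u⁻¹ := IsAlgebraic.inv hu

theorem AlgOver.div {u v : ℂ} (hu : AlgOver θ u) (hv : AlgOver θ v) : AlgOver θ (u / v) := by
  rw [div_eq_mul_inv]; exact hu.mul hv.inv

theorem AlgOver.of_alg {u : ℂ} (hu : IsAlgebraic ℚ u) : AlgOver θ u := by
  unfold AlgOver
  exact hu.extendScalars (algebraMap ℚ (IntermediateField.adjoin ℚ {θ})).injective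

theorem AlgOver.rat (q : ℚ) : AlgOver θ (q : ℂ) :=
  AlgOver.of_alg (isAlgebraic_algebraMap (A := ℂ) q)

theorem AlgOver.self : AlgOver θ θ := by
  unfold AlgOver
  have h : θ = algebraMap (IntermediateField.adjoin ℚ {θ}) ℂ
      ⟨θ, IntermediateField.mem_adjoin_simple_self ℚ θ⟩ := rfl
  rw [h]
  exact isAlgebraic_algebraMap _

/-- rational multiples in the exponent -/
theorem AlgOver.exp_rat {u : ℂ} (hu : AlgOver θ (exp u)) (q : ℚ) : AlgOver θ (exp (q * u)) := by
  have hd : (q.den : ℂ) ≠ 0 := by exact_mod_cast q.den_nz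
  have h1 : exp (q * u) ^ q.den = exp u ^ q.num := by
    rw [← Complex.exp_nat_mul, ← Complex.exp_int_mul]
    congr 1
    have h2 : ((q : ℚ) : ℂ) = (q.num : ℂ) / (q.den : ℂ) := by
      exact_mod_cast (Rat.cast_def (K := ℂ) q)
    rw [h2]
    field_simp
  have h3 : AlgOver θ (exp (q * u) ^ q.den) := by
    rw [h1]
    unfold AlgOver at *
    rcases q.num with n | n
    · simpa using hu.pow n
    · rw [zpow_negSucc]
      exact (hu.pow (n + 1)).inv
  exact IsAlgebraic.of_pow q.pos h3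

theorem AlgOver.exp_add {u v : ℂ} (hu : AlgOver θ (exp u)) (hv : AlgOver θ (exp v)) :
    AlgOver θ (exp (u + v)) := by
  rw [Complex.exp_add]; exact hu.mul hv

/-- **The theorem of Brownawell and Waldschmidt** in the form used here. -/
theorem bw {z₁ z₂ g : ℂ} (hθ : Transcendental ℚ θ) (h₁ : AlgOver θ z₁) (h₂ : AlgOver θ z₂)
    (hg : AlgOver θ g) (hind : ∀ s t : ℚ, (s : ℂ) * z₁ + t * z₂ = 0 → s = 0 ∧ t = 0)
    (hgQ : ∀ q : ℚ, g ≠ q) (e₁ : IsAlgebraic ℚ (exp z₁)) (e₂ : IsAlgebraic ℚ (exp z₂))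
    (f₁ : AlgOver θ (exp (z₁ * g))) (f₂ : AlgOver θ (exp (z₂ * g))) : False := by
  refine Pool.Agent.W252.bw hθ ![z₁, z₂] ![1, g] ?_ ?_ ?_ ?_ ?_ ?_
  · rw [LinearIndependent.pair_iff]
    intro s t hst
    exact hind s t (by simpa [Rat.smul_def] using hst)
  · rw [LinearIndependent.pair_iff]
    intro s t hst
    have hst' : (s : ℂ) + t * g = 0 := by simpa [Rat.smul_def] using hst
    have ht : t = 0 := by
      by_contra ht
      have ht' : (t : ℂ) ≠ 0 := by exact_mod_cast ht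
      apply hgQ (-s / t)
      push_cast
      field_simp
      linear_combination hst'
    subst ht
    refine ⟨?_, rfl⟩
    have : (s : ℂ) = 0 := by simpa using hst'
    exact_mod_cast this
  · intro i; fin_cases i
    · exact h₁
    · exact h₂
  · intro i; fin_cases i
    · exact isAlgebraic_one
    · exact hg
  · intro i; fin_cases i
    · simpa using e₁
    · simpa using e₂
  · intro i; fin_cases i
    · simpa [AlgOver] using f₁
    · simpa [AlgOver] using f₂

/-- **Gel'fond's theorem** for three and two numbers in the form used here. -/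
theorem gel {z₁ z₂ z₃ g : ℂ} (hθ : Transcendental ℚ θ) (h₁ : AlgOver θ z₁) (h₂ : AlgOver θ z₂)
    (h₃ : AlgOver θ z₃) (hg : AlgOver θ g)
    (hind : ∀ r s t : ℚ, (r : ℂ) * z₁ + s * z₂ + t * z₃ = 0 → r = 0 ∧ s = 0 ∧ t = 0)
    (hgQ : ∀ q : ℚ, g ≠ q) (e₁ : AlgOver θ (exp z₁)) (e₂ : AlgOver θ (exp z₂))
    (e₃ : AlgOver θ (exp z₃)) (f₁ : AlgOver θ (exp (z₁ * g))) (f₂ : AlgOver θ (exp (z₂ * g)))
    (f₃ : AlgOver θ (exp (z₃ * g))) : False := by
  refine Pool.Agent.W252.gelG32 θ hθ ![z₁, z₂, z₃] ![1, g] ?_ ?_ ?_ ?_ ?_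
  · rw [Fintype.linearIndependent_iff]
    intro c hc
    have hc' : (c 0 : ℂ) * z₁ + c 1 * z₂ + c 2 * z₃ = 0 := by
      simpa [Fin.sum_univ_three, Rat.smul_def] using hc
    obtain ⟨a, b, d⟩ := hind _ _ _ hc'
    intro i; fin_cases i
    · exact a
    · exact b
    · exact d
  · rw [LinearIndependent.pair_iff]
    intro s t hst
    have hst' : (s : ℂ) + t * g = 0 := by simpa [Rat.smul_def] using hst
    have ht : t = 0 := by
      by_contra ht
      have ht' : (t : ℂ) ≠ 0 := by exact_mod_cast ht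
      apply hgQ (-s / t)
      push_cast
      field_simp
      linear_combination hst'
    subst ht
    refine ⟨?_, rfl⟩
    have : (s : ℂ) = 0 := by simpa using hst'
    exact_mod_cast this
  · intro i; fin_cases i
    · exact h₁
    · exact h₂
    · exact h₃
  · intro i; fin_cases i
    · exact isAlgebraic_one
    · exact hg
  · intro i j; fin_cases i <;> fin_cases j
    · simpa [AlgOver] using e₁
    · simpa [AlgOver] using f₁
    · simpa [AlgOver] using e₂
    · simpa [AlgOver] using f₂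
    · simpa [AlgOver] using e₃
    · simpa [AlgOver] using f₃

/-- `e ^ α` is transcendental for algebraic `α ≠ 0` -/
theorem exp_tr {α : ℂ} (hα : IsAlgebraic ℚ α) (h0 : α ≠ 0) : Transcendental ℚ (exp α) :=
  Pool.Agent.H340R2.LW.transcendental_cexp α hα h0

theorem exp_rat_mul {ρ : ℂ} (q : ℚ) : AlgOver (exp ρ) (exp (q * ρ)) :=
  AlgOver.exp_rat AlgOver.self q

/-- **No two shifts.** If `e ^ (β e ^ (ρ r))` and `e ^ (β e ^ (ρ s))` are algebraic, `r ≠ s`, then for
`t ≠ 0` one of `e ^ (β e ^ (ρ (r + t)))`, `e ^ (β e ^ (ρ (s + t)))` is transcendental over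
`ℚ(e ^ ρ)`. -/
theorem shift {β ρ : ℂ} (hβ : IsAlgebraic ℚ β) (hβ0 : β ≠ 0) (hρ : IsAlgebraic ℚ ρ) (hρ0 : ρ ≠ 0)
    {r s t : ℚ} (hrs : r ≠ s) (ht : t ≠ 0)
    (hr : IsAlgebraic ℚ (exp (β * exp (r * ρ)))) (hs : IsAlgebraic ℚ (exp (β * exp (s * ρ))))
    (h1 : AlgOver (exp ρ) (exp (β * exp (((r + t : ℚ) : ℂ) * ρ))))
    (h2 : AlgOver (exp ρ) (exp (β * exp (((s + t : ℚ) : ℂ) * ρ)))) : False := by
  have hq : ∀ q : ℚ, q ≠ 0 → Transcendental ℚ (exp ((q : ℂ) * ρ)) := fun q h =>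
    exp_tr ((isAlgebraic_algebraMap (A := ℂ) q).mul hρ) (mul_ne_zero (by exact_mod_cast h) hρ0)
  refine bw (exp_tr hρ hρ0) (z₁ := β * exp (r * ρ)) (z₂ := β * exp (s * ρ)) (g := exp (t * ρ))
    ((AlgOver.of_alg hβ).mul (exp_rat_mul r)) ((AlgOver.of_alg hβ).mul (exp_rat_mul s))
    (exp_rat_mul t) ?_ ?_ hr hs ?_ ?_
  · intro a b hab
    have hab' : (a : ℂ) + b * exp (((s - r : ℚ) : ℂ) * ρ) = 0 := by
      have e1 : exp (s * ρ) = exp (r * ρ) * exp (((s - r : ℚ) : ℂ) * ρ) := by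
        rw [← Complex.exp_add]; congr 1; push_cast; ring
      have h0 : β * exp (r * ρ) * ((a : ℂ) + b * exp (((s - r : ℚ) : ℂ) * ρ)) = 0 := by
        rw [e1] at hab
        linear_combination hab
      exact (mul_eq_zero.1 h0).resolve_left (mul_ne_zero hβ0 (Complex.exp_ne_zero _))
    have hb : b = 0 := by
      by_contra hb
      have hb' : (b : ℂ) ≠ 0 := by exact_mod_cast hb
      have h3 : exp (((s - r : ℚ) : ℂ) * ρ) = ((-a / b : ℚ) : ℂ) := by
        push_cast
        field_simp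
        push_cast at hab'
        linear_combination hab'
      have h4 := hq (s - r) (sub_ne_zero.2 hrs.symm)
      rw [h3] at h4
      exact h4 (isAlgebraic_algebraMap (A := ℂ) (-a / b))
    subst hb
    refine ⟨?_, rfl⟩
    have : (a : ℂ) = 0 := by simpa using hab'
    exact_mod_cast this
  · intro q hq'
    have h4 := hq t ht
    rw [hq'] at h4
    exact h4 (isAlgebraic_algebraMap (A := ℂ) q)
  · have e1 : β * exp (r * ρ) * exp (t * ρ) = β * exp (((r + t : ℚ) : ℂ) * ρ) := by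
      rw [mul_assoc, ← Complex.exp_add]; congr 2; push_cast; ring
    rw [e1]; exact h1
  · have e1 : β * exp (s * ρ) * exp (t * ρ) = β * exp (((s + t : ℚ) : ℂ) * ρ) := by
      rw [mul_assoc, ← Complex.exp_add]; congr 2; push_cast; ring
    rw [e1]; exact h2

/-- quadratic polynomials -/
theorem quad {u : ℂ} (hu : Transcendental ℚ u) {α β γ : ℚ}
    (h : (α : ℂ) * u ^ 2 + β * u + γ = 0) : α = 0 ∧ β = 0 ∧ γ = 0 := by
  have h1 := (transcendental_iff.1 hu)
    (Polynomial.C α * Polynomial.X ^ 2 + Polynomial.C β * Polynomial.X + Polynomial.C γ)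
    (by simpa using h)
  have c0 := congrArg (fun P => Polynomial.coeff P 0) h1
  have c1 := congrArg (fun P => Polynomial.coeff P 1) h1
  have c2 := congrArg (fun P => Polynomial.coeff P 2) h1
  simp [Polynomial.coeff_X, Polynomial.coeff_C] at c0 c1 c2
  exact ⟨c2, c1, c0⟩

theorem lin {u : ℂ} (hu : Transcendental ℚ u) {c d : ℚ} (h : (c : ℂ) * u + d = 0) :
    c = 0 ∧ d = 0 := by
  have := quad hu (α := 0) (β := c) (γ := d) (by push_cast; linear_combination h)
  exact this.2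

theorem lin_ne {u : ℂ} (hu : Transcendental ℚ u) {a b c d : ℚ} (h : a * d - b * c ≠ 0) :
    (c : ℂ) * u + d ≠ 0 ∧ (a : ℂ) * u + b ≠ 0 := by
  constructor
  · intro h1
    obtain ⟨h2, h3⟩ := lin hu h1
    apply h; rw [h2, h3]; ring
  · intro h1
    obtain ⟨h2, h3⟩ := lin hu h1
    apply h; rw [h2, h3]; ring

/-- the value at `u` of the transformation `(a x + b) / (c x + d)` -/
noncomputable def R (u : ℂ) (a b c d : ℚ) : ℂ := ((a : ℂ) * u + b) / (c * u + d)

theorem R_al (u : ℂ) (a b c d : ℚ) : AlgOver u (R u a b c d) := by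
  have h1 : AlgOver u u := AlgOver.self
  exact (((AlgOver.rat a).mul h1).add (AlgOver.rat b)).div
    (((AlgOver.rat c).mul h1).add (AlgOver.rat d))

theorem R_ne {u : ℂ} (hu : Transcendental ℚ u) {a b c d : ℚ} (h : a * d - b * c ≠ 0) (q : ℚ) :
    R u a b c d ≠ q := by
  intro hq
  have h1 := (lin_ne hu h).1
  rw [R, div_eq_iff h1] at hq
  obtain ⟨h2, h3⟩ := lin hu (c := a - q * c) (d := b - q * d)
    (by push_cast; linear_combination hq)
  apply h
  linear_combination d * h2 - c * h3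

/-- rational affine combinations in the exponent -/
theorem comb {w u v : ℂ} (he : AlgOver w (exp 1)) (hu : AlgOver w (exp u)) (hv : AlgOver w (exp v))
    (α β γ : ℚ) : AlgOver w (exp (α * 1 + β * u + γ * v)) :=
  ((he.exp_rat α).exp_add (hu.exp_rat β)).exp_add (hv.exp_rat γ)

theorem alg_exp_rat {u : ℂ} (hu : IsAlgebraic ℚ (exp u)) (q : ℚ) : IsAlgebraic ℚ (exp (q * u)) := by
  have hd : (q.den : ℂ) ≠ 0 := by exact_mod_cast q.den_nz
  have h1 : exp (q * u) ^ q.den = exp u ^ q.num := by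
    rw [← Complex.exp_nat_mul, ← Complex.exp_int_mul]
    congr 1
    have h2 : ((q : ℚ) : ℂ) = (q.num : ℂ) / (q.den : ℂ) := by
      exact_mod_cast (Rat.cast_def (K := ℂ) q)
    rw [h2]
    field_simp
  have h3 : IsAlgebraic ℚ (exp (q * u) ^ q.den) := by
    rw [h1]
    rcases q.num with n | n
    · simpa using hu.pow n
    · rw [zpow_negSucc]
      exact (hu.pow (n + 1)).inv
  exact IsAlgebraic.of_pow q.pos h3

theorem R_den {u : ℂ} {a b c d : ℚ} (h : (c : ℂ) * u + d ≠ 0) : R u a b c d * (c * u + d) = a * u + b :=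
  div_mul_cancel₀ _ h

/-- **Equal poles.** -/
theorem same_pole {u : ℂ} (hu : Transcendental ℚ u) {a b a' b' c d : ℚ} (h : a * d - b * c ≠ 0)
    (e₁ : IsAlgebraic ℚ (exp (R u a b c d))) (e₂ : IsAlgebraic ℚ (exp (R u a' b' c d))) :
    a * b' = a' * b := by
  by_contra hne
  have hΔ : a * b' - a' * b ≠ 0 := sub_ne_zero.2 hne
  obtain ⟨k, hk⟩ : ∃ k : ℚ, k * (a * b' - a' * b) = 1 := ⟨_, inv_mul_cancel₀ hΔ⟩
  have hkC : (k : ℂ) * (a * b' - a' * b) = 1 := by exact_mod_cast hk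
  have h1 := (lin_ne hu h).1
  have hx : R u a b c d * (c * u + d) = a * u + b := R_den h1
  have hy : R u a' b' c d * (c * u + d) = a' * u + b' := R_den h1
  have key : (1 : ℂ) = (((c * b' - d * a') * k : ℚ) : ℂ) * R u a b c d +
      (((a * d - b * c) * k : ℚ) : ℂ) * R u a' b' c d := by
    apply mul_left_cancel₀ h1
    push_cast
    linear_combination (-((c * b' - d * a') * k : ℂ)) * hx + (-((a * d - b * c) * k : ℂ)) * hy -
      (c * u + d) * hkC
  have h2 : IsAlgebraic ℚ (exp 1) := by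
    rw [key, Complex.exp_add]
    exact (alg_exp_rat e₁ _).mul (alg_exp_rat e₂ _)
  exact (exp_tr isAlgebraic_one one_ne_zero) h2

/-- **Equal zeros.** -/
theorem same_zero {u : ℂ} (hu : Transcendental ℚ u) (he : AlgOver u (exp 1))
    {a b c d c' d' : ℚ} (h : a * d - b * c ≠ 0) (h' : a * d' - b * c' ≠ 0)
    (e₁ : IsAlgebraic ℚ (exp (R u a b c d))) (e₂ : IsAlgebraic ℚ (exp (R u a b c' d'))) :
    c * d' = c' * d := by
  by_contra hne
  have hΔ : c * d' - c' * d ≠ 0 := sub_ne_zero.2 hne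
  obtain ⟨h1, h0⟩ := lin_ne hu h
  have h1' := (lin_ne hu h').1
  obtain ⟨k, hk⟩ : ∃ k : ℚ, k * (a * d' - b * c') = 1 := ⟨_, inv_mul_cancel₀ h'⟩
  have hkC : (k : ℂ) * (a * d' - b * c') = 1 := by exact_mod_cast hk
  have hx : R u a b c d * (c * u + d) = a * u + b := R_den h1
  have hv : R u a b c' d' * (c' * u + d') = a * u + b := R_den h1'
  have hw : R u c d a b * (a * u + b) = c * u + d := R_den h0
  have hinv : R u c d a b = (R u a b c d)⁻¹ := by unfold R; rw [inv_div]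
  have hR0 : R u a b c d ≠ 0 := by
    have := R_ne hu h 0
    simpa using this
  refine bw hu (z₁ := R u a b c d) (z₂ := R u a b c' d') (g := R u c d a b) (R_al _ _ _ _ _)
    (R_al _ _ _ _ _) (R_al _ _ _ _ _) ?_ ?_ e₁ e₂ ?_ ?_
  · intro s t hst
    have h2 : ((a : ℂ) * u + b) * (((s * c' + t * c : ℚ) : ℂ) * u + ((s * d' + t * d : ℚ) : ℂ)) = 0 := by
      push_cast
      linear_combination ((c * u + d) * (c' * u + d')) * hst - s * (c' * u + d') * hx -
        t * (c * u + d) * hv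
    obtain ⟨h3, h4⟩ := lin hu ((mul_eq_zero.1 h2).resolve_left h0)
    constructor
    · have : s * (c * d' - c' * d) = 0 := by linear_combination c * h4 - d * h3
      exact (mul_eq_zero.1 this).resolve_right hΔ
    · have : t * (c * d' - c' * d) = 0 := by linear_combination d' * h3 - c' * h4
      exact (mul_eq_zero.1 this).resolve_right hΔ
  · intro q
    exact R_ne hu (a := c) (b := d) (c := a) (d := b) (by intro h5; apply h; linear_combination -h5) q
  · rw [hinv, mul_inv_cancel₀ hR0]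
    exact he
  · have e : R u a b c' d' * R u c d a b =
        (((a * d - b * c) * k : ℚ) : ℂ) * 1 + (((c * d' - d * c') * k : ℚ) : ℂ) * R u a b c' d' +
        ((0 : ℚ) : ℂ) * R u a b c' d' := by
      apply mul_left_cancel₀ (mul_ne_zero h1' h0)
      push_cast
      linear_combination (R u c d a b * (a * u + b) - ((c * d' - d * c') * k) * (a * u + b)) * hv +
        (a * u + b) * hw - (a * u + b) * (c * u + d) * hkC
    rw [e]
    exact comb he (AlgOver.of_alg e₂) (AlgOver.of_alg e₂) _ _ _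

/-- product of two values -/
theorem R_mul {u : ℂ} (hu : Transcendental ℚ u) {a b c d a' b' c' d' : ℚ} (h : a * d - b * c ≠ 0) (h' : a' * d' - b' * c' ≠ 0)
    (hp : c * d' - c' * d ≠ 0) : ∃ α β γ : ℚ,
    R u a b c d * R u a' b' c' d' = (α : ℂ) * 1 + β * R u a b c d + γ * R u a' b' c' d' := by
  have h1 := (lin_ne hu h).1
  have h1' := (lin_ne hu h').1
  obtain ⟨k, hk⟩ : ∃ k : ℚ, k * (c * d' - c' * d) = 1 := ⟨_, inv_mul_cancel₀ hp⟩
  have hkC : (k : ℂ) * (c * d' - c' * d) = 1 := by exact_mod_cast hk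
  have hx : R u a b c d * (c * u + d) = a * u + b := R_den h1
  have hy : R u a' b' c' d' * (c' * u + d') = a' * u + b' := R_den h1'
  refine ⟨-((a * d - b * c) * (a' * d' - b' * c')) * k ^ 2 -
    ((b' * c - a' * d) * k) * (-(b * c' - a * d') * k),
    (b' * c - a' * d) * k, -(b * c' - a * d') * k, ?_⟩
  apply mul_left_cancel₀ (mul_ne_zero h1 h1')
  push_cast
  linear_combination (R u a' b' c' d' * (c' * u + d') - (b' * c - a' * d) * k * (c' * u + d')) * hx +
    ((a * u + b) - (-(b * c' - a * d') * k) * (c * u + d)) * hy +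
    (-((a * u + b) * (a' * u + b')) * (1 + k * (c * d' - c' * d)) +
      k * (b' * c - a' * d) * ((a * u + b) * (c' * u + d')) +
      k * (-(b * c' - a * d')) * ((c * u + d) * (a' * u + b'))) * hkC

/-- **At most two poles.** -/
theorem three_poles {u : ℂ} (hu : Transcendental ℚ u) (he : AlgOver u (exp 1))
    {a b c d a' b' c' d' a'' b'' c'' d'' : ℚ} (h : a * d - b * c ≠ 0)
    (h' : a' * d' - b' * c' ≠ 0) (h'' : a'' * d'' - b'' * c'' ≠ 0)
    (e₁ : AlgOver u (exp (R u a b c d))) (e₂ : AlgOver u (exp (R u a' b' c' d')))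
    (e₃ : AlgOver u (exp (R u a'' b'' c'' d''))) (p₁ : c * d' - c' * d ≠ 0)
    (p₂ : c * d'' - c'' * d ≠ 0) (p₃ : c' * d'' - c'' * d' ≠ 0) : False := by
  have h1 := (lin_ne hu h).1
  have h1' := (lin_ne hu h').1
  have h1'' := (lin_ne hu h'').1
  obtain ⟨α, β, γ, hm⟩ := R_mul hu h' h (by intro h5; apply p₁; linear_combination -h5)
  obtain ⟨α', β', γ', hm'⟩ := R_mul hu h'' h (by intro h5; apply p₂; linear_combination -h5)
  have hy : R u a' b' c' d' * (c' * u + d') = a' * u + b' := R_den h1'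
  have hz : R u a'' b'' c'' d'' * (c'' * u + d'') = a'' * u + b'' := R_den h1''
  refine gel hu (z₁ := 1) (z₂ := R u a' b' c' d') (z₃ := R u a'' b'' c'' d'') (g := R u a b c d)
    (AlgOver.of_alg isAlgebraic_one) (R_al _ _ _ _ _) (R_al _ _ _ _ _) (R_al _ _ _ _ _) ?_ (R_ne hu h)
    he e₂ e₃ ?_ ?_ ?_
  · intro r s t hrst
    have h2 : ((r * (c' * c'') + s * (a' * c'') + t * (a'' * c') : ℚ) : ℂ) * u ^ 2 +
        ((r * (c' * d'' + c'' * d') + s * (a' * d'' + b' * c'') + t * (a'' * d' + b'' * c') : ℚ) : ℂ)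
          * u + ((r * (d' * d'') + s * (b' * d'') + t * (b'' * d') : ℚ) : ℂ) = 0 := by
      push_cast
      linear_combination ((c' * u + d') * (c'' * u + d'')) * hrst - s * (c'' * u + d'') * hy -
        t * (c' * u + d') * hz
    obtain ⟨k2, k1, k0⟩ := quad hu h2
    have hs : s = 0 := by
      have : s * ((a' * d' - b' * c') * (c' * d'' - c'' * d')) = 0 := by
        linear_combination (-d' ^ 2) * k2 + (d' * c') * k1 - c' ^ 2 * k0
      exact (mul_eq_zero.1 this).resolve_right (mul_ne_zero h' p₃)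
    have ht : t = 0 := by
      have : t * ((a'' * d'' - b'' * c'') * (c' * d'' - c'' * d')) = 0 := by
        linear_combination (d'' ^ 2) * k2 - (d'' * c'') * k1 + c'' ^ 2 * k0
      exact (mul_eq_zero.1 this).resolve_right (mul_ne_zero h'' p₃)
    subst hs; subst ht
    refine ⟨?_, rfl, rfl⟩
    have h3 : (r : ℂ) = 0 := by simpa using hrst
    exact_mod_cast h3
  · rw [one_mul]; exact e₁
  · rw [hm]; exact comb he e₂ e₁ _ _ _
  · rw [hm']; exact comb he e₃ e₁ _ _ _

/-- a Sidon set of integers in `[0, M]` -/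
theorem count {A : Finset ℤ} {M : ℕ} (hA : ∀ a ∈ A, 0 ≤ a ∧ a ≤ M)
    (hS : ∀ a ∈ A, ∀ b ∈ A, ∀ c ∈ A, ∀ d ∈ A, a ≠ b → c ≠ d → b - a = d - c → a = c ∧ b = d) :
    A.card * (A.card - 1) ≤ 2 * M := by
  classical
  have h1 : A.offDiag.card ≤ ((Finset.Icc (-(M : ℤ)) M).erase 0).card := by
    apply Finset.card_le_card_of_injOn (fun p => p.2 - p.1)
    · intro p hp
      rw [Finset.mem_coe, Finset.mem_offDiag] at hp
      obtain ⟨ha, hb, hab⟩ := hp
      have h1 := hA _ ha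
      have h2 := hA _ hb
      rw [Finset.mem_coe, Finset.mem_erase, Finset.mem_Icc]
      refine ⟨?_, ?_, ?_⟩ <;> dsimp only <;> omega
    · intro p hp q hq hpq
      rw [Finset.mem_coe, Finset.mem_offDiag] at hp hq
      have := hS _ hp.1 _ hp.2.1 _ hq.1 _ hq.2.1 hp.2.2 hq.2.2 hpq
      exact Prod.ext this.1 this.2
  rw [Finset.offDiag_card, Finset.card_erase_of_mem (by rw [Finset.mem_Icc]; omega),
    Int.card_Icc] at h1
  rw [Nat.mul_sub, mul_one]
  omega

/-- the number `e ^ (β e ^ (ρ r))` -/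
noncomputable def num (β ρ : ℂ) (r : ℚ) : ℂ := exp (β * exp (r * ρ))

/-- the real number `e ^ (e ^ r)` -/
noncomputable def tower (r : ℚ) : ℝ := Real.exp (Real.exp r)

theorem tower_eq (r : ℚ) : ((tower r : ℝ) : ℂ) = num 1 1 r := by
  unfold tower num
  push_cast
  rw [one_mul, mul_one]

theorem num_of_tower {r : ℚ} (h : IsAlgebraic ℚ (tower r)) : IsAlgebraic ℚ (num 1 1 r) := by
  rw [← tower_eq]
  exact h.algebraMap (A := ℂ)

theorem sidon {β ρ : ℂ} (hβ : IsAlgebraic ℚ β) (hβ0 : β ≠ 0) (hρ : IsAlgebraic ℚ ρ) (hρ0 : ρ ≠ 0)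
    {a b c d : ℚ} (ha : IsAlgebraic ℚ (num β ρ a)) (hb : IsAlgebraic ℚ (num β ρ b))
    (hc : IsAlgebraic ℚ (num β ρ c)) (hd : IsAlgebraic ℚ (num β ρ d)) (h : a + b = c + d) :
    (a = c ∧ b = d) ∨ (a = d ∧ b = c) := by
  by_cases h1 : a = c
  · exact Or.inl ⟨h1, by linarith⟩
  by_cases h2 : a = d
  · exact Or.inr ⟨h2, by linarith⟩
  exfalso
  refine shift hβ hβ0 hρ hρ0 (r := a) (s := c) (t := d - a) h1 (sub_ne_zero.2 (Ne.symm h2)) ha hc ?_ ?_
  · have e : a + (d - a) = d := by ring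
    rw [e]; exact AlgOver.of_alg hd
  · have e : c + (d - a) = b := by linarith
    rw [e]; exact AlgOver.of_alg hb

theorem sumfree {r s : ℚ} (hr : r ≠ 0) (hs : s ≠ 0) (h1 : IsAlgebraic ℚ (num 1 1 r))
    (h2 : IsAlgebraic ℚ (num 1 1 s)) (h3 : IsAlgebraic ℚ (num 1 1 (r + s))) : False := by
  refine shift (β := 1) (ρ := 1) isAlgebraic_one one_ne_zero isAlgebraic_one one_ne_zero
    (r := r) (s := r + s) (t := -r) (by intro h; apply hs; linarith) (neg_ne_zero.2 hr) h1 h3 ?_ ?_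
  · have e : r + -r = 0 := by ring
    rw [e]
    have : exp (1 * exp (((0 : ℚ) : ℂ) * 1)) = exp 1 := by simp
    rw [this]
    exact AlgOver.self
  · have e : r + s + -r = s := by ring
    rw [e]; exact AlgOver.of_alg h2

theorem count_tower (N : ℕ) (T : Finset ℕ) (hT : T ⊆ Finset.Icc 1 N)
    (hal : ∀ n ∈ T, IsAlgebraic ℚ (tower n)) : T.card * (T.card + 1) ≤ 2 * N := by
  classical
  set A : Finset ℤ := insert 0 (T.image (fun n : ℕ => (n : ℤ))) with hAdef
  have hT1 : ∀ n ∈ T, 1 ≤ n ∧ n ≤ N := fun n hn => Finset.mem_Icc.1 (hT hn)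
  have hcard : A.card = T.card + 1 := by
    rw [hAdef, Finset.card_insert_of_notMem, Finset.card_image_of_injective _ Nat.cast_injective]
    intro h
    obtain ⟨n, hn, h0⟩ := Finset.mem_image.1 h
    have := (hT1 n hn).1
    omega
  have hmem : ∀ a ∈ A, a = 0 ∨ (1 ≤ a ∧ a ≤ N ∧ IsAlgebraic ℚ (num 1 1 (a : ℚ))) := by
    intro a ha
    rw [hAdef, Finset.mem_insert] at ha
    rcases ha with ha | ha
    · exact Or.inl ha
    · right
      obtain ⟨n, hn, rfl⟩ := Finset.mem_image.1 ha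
      refine ⟨by exact_mod_cast (hT1 n hn).1, by exact_mod_cast (hT1 n hn).2, ?_⟩
      have := num_of_tower (hal n hn)
      simpa using this
  have hsf : ∀ x y z : ℤ, 1 ≤ x → 1 ≤ y → IsAlgebraic ℚ (num 1 1 (x : ℚ)) →
      IsAlgebraic ℚ (num 1 1 (y : ℚ)) → IsAlgebraic ℚ (num 1 1 (z : ℚ)) → z = x + y → False := by
    intro x y z hx hy h1 h2 h3 hz
    refine sumfree (r := x) (s := y) ?_ ?_ h1 h2 ?_
    · have : x ≠ 0 := by omega
      exact_mod_cast this
    · have : y ≠ 0 := by omega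
      exact_mod_cast this
    · rw [hz] at h3
      push_cast at h3
      exact h3
  have key := count (A := A) (M := N) ?_ ?_
  · rw [hcard] at key
    simpa [Nat.mul_comm] using key
  · intro a ha
    rcases hmem a ha with h | h
    · omega
    · omega
  · intro a ha b hb c hc d hd hab hcd h
    rcases hmem a ha with ha' | ⟨ha1, -, ha3⟩ <;> rcases hmem b hb with hb' | ⟨hb1, -, hb3⟩ <;>
      rcases hmem c hc with hc' | ⟨hc1, -, hc3⟩ <;> rcases hmem d hd with hd' | ⟨hd1, -, hd3⟩ <;>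
      first
      | omega
      | exact (hsf c b d hc1 hb1 hc3 hb3 hd3 (by omega)).elim
      | exact (hsf a d b ha1 hd1 ha3 hd3 hb3 (by omega)).elim
      | exact (hsf b c d hb1 hc1 hb3 hc3 hd3 (by omega)).elim
      | exact (hsf a d c ha1 hd1 ha3 hd3 hc3 (by omega)).elim
      | exact (hsf b c a hb1 hc1 hb3 hc3 ha3 (by omega)).elim
      | skip
    have hq : (a : ℚ) + d = c + b := by
      have : a + d = c + b := by omega
      exact_mod_cast this
    rcases sidon (β := 1) (ρ := 1) isAlgebraic_one one_ne_zero isAlgebraic_one one_ne_zero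
      ha3 hd3 hc3 hb3 hq with ⟨h1, h2⟩ | ⟨h1, h2⟩
    · exact ⟨by exact_mod_cast h1, by exact_mod_cast h2.symm⟩
    · exact absurd (by exact_mod_cast h1) hab

theorem count_num {β ρ : ℂ} (hβ : IsAlgebraic ℚ β) (hβ0 : β ≠ 0) (hρ : IsAlgebraic ℚ ρ)
    (hρ0 : ρ ≠ 0) (N : ℕ) (T : Finset ℕ) (hT : T ⊆ Finset.Icc 1 N)
    (hal : ∀ n ∈ T, IsAlgebraic ℚ (num β ρ n)) : T.card * (T.card - 1) ≤ 2 * (N - 1) := by
  classical
  set A : Finset ℤ := T.image (fun n : ℕ => (n : ℤ) - 1) with hAdef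
  have hT1 : ∀ n ∈ T, 1 ≤ n ∧ n ≤ N := fun n hn => Finset.mem_Icc.1 (hT hn)
  have hcard : A.card = T.card := by
    rw [hAdef, Finset.card_image_of_injective]
    intro x y h
    simpa using h
  have hmem : ∀ a ∈ A, 0 ≤ a ∧ a ≤ (N - 1 : ℕ) ∧ IsAlgebraic ℚ (num β ρ ((a + 1 : ℤ) : ℚ)) := by
    intro a ha
    obtain ⟨n, hn, rfl⟩ := Finset.mem_image.1 ha
    have := hT1 n hn
    refine ⟨by omega, by omega, ?_⟩
    have h2 := hal n hn
    have e : (((n : ℤ) - 1 + 1 : ℤ) : ℚ) = ((n : ℕ) : ℚ) := by push_cast; ring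
    rw [e]
    exact h2
  have key := count (A := A) (M := N - 1) ?_ ?_
  · rw [hcard] at key
    exact key
  · intro a ha
    exact ⟨(hmem a ha).1, (hmem a ha).2.1⟩
  · intro a ha b hb c hc d hd hab hcd h
    have hq : ((a + 1 : ℤ) : ℚ) + ((d + 1 : ℤ) : ℚ) = ((c + 1 : ℤ) : ℚ) + ((b + 1 : ℤ) : ℚ) := by
      have : (a + 1) + (d + 1) = (c + 1) + (b + 1) := by omega
      exact_mod_cast this
    rcases sidon hβ hβ0 hρ hρ0 (hmem a ha).2.2 (hmem d hd).2.2 (hmem c hc).2.2 (hmem b hb).2.2 hq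
      with ⟨h1, h2⟩ | ⟨h1, h2⟩
    · have h1' : a + 1 = c + 1 := by exact_mod_cast h1
      have h2' : d + 1 = b + 1 := by exact_mod_cast h2
      omega
    · have h1' : a + 1 = b + 1 := by exact_mod_cast h1
      omega

/-- real values -/
theorem real_R {x : ℝ} {a b c d : ℚ}
    (h : IsAlgebraic ℚ (Real.exp (((a : ℝ) * x + b) / (c * x + d)))) :
    IsAlgebraic ℚ (exp (R (x : ℂ) a b c d)) := by
  have h1 := h.algebraMap (A := ℂ)
  have e : (algebraMap ℝ ℂ) (Real.exp (((a : ℝ) * x + b) / (c * x + d))) =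
      exp (R (x : ℂ) a b c d) := by
    show ((Real.exp (((a : ℝ) * x + b) / (c * x + d)) : ℝ) : ℂ) = _
    unfold R
    push_cast
    rfl
  rwa [e] at h1

theorem E_tr : Transcendental ℚ (((Real.exp 1 : ℝ)) : ℂ) := by
  have := exp_tr (α := 1) isAlgebraic_one one_ne_zero
  simpa using this

theorem E_al : AlgOver (((Real.exp 1 : ℝ)) : ℂ) (exp 1) := by
  have h : (((Real.exp 1 : ℝ)) : ℂ) = exp 1 := by simp
  rw [h]
  exact AlgOver.self

end Pool.Agent.Helper305_BW
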