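import Pool.Agent.Helper305_BW.Base

/-!
# The numbers `e ^ (-x² / (1 + c x))` for `x ≠ 0` with `e ^ x` algebraic
-/

set_option autoImplicit false

namespace Pool.Agent.Helper305_BW

open Complex

/-- the exponent -/
noncomputable def V (x : ℂ) (c : ℚ) : ℂ := -x ^ 2 / (1 + c * x)

theorem den_ne {x : ℂ} (hx : Transcendental ℚ x) (c : ℚ) : (1 : ℂ) + c * x ≠ 0 := by
  intro h
  obtain ⟨h1, h2⟩ := lin hx (c := c) (d := 1) (by push_cast; linear_combination h)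
  exact one_ne_zero h2

theorem x_ne {x : ℂ} (hx : Transcendental ℚ x) : x ≠ 0 := by
  intro h
  apply hx
  rw [h]
  exact isAlgebraic_zero

theorem V_den {x : ℂ} (hx : Transcendental ℚ x) (c : ℚ) : V x c * (1 + c * x) = -x ^ 2 :=
  div_mul_cancel₀ _ (den_ne hx c)

theorem V_al {θ x : ℂ} (hθx : AlgOver θ x) (c : ℚ) : AlgOver θ (V x c) := by
  unfold V
  have h : -x ^ 2 / (1 + (c : ℂ) * x) = (((-1 : ℚ) : ℂ) * (x * x)) / (((1 : ℚ) : ℂ) + c * x) := by
    push_cast; ring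
  rw [h]
  exact ((AlgOver.rat (-1)).mul (hθx.mul hθx)).div ((AlgOver.rat 1).add ((AlgOver.rat c).mul hθx))

theorem V_div {x : ℂ} (hx : Transcendental ℚ x) (c : ℚ) :
    V x c * x⁻¹ = ((-1 : ℚ) : ℂ) * x + ((-c : ℚ) : ℂ) * V x c := by
  apply mul_left_cancel₀ (mul_ne_zero (x_ne hx) (den_ne hx c))
  have h := V_den hx c
  have h1 : x * x⁻¹ = 1 := mul_inv_cancel₀ (x_ne hx)
  push_cast
  linear_combination (1 + c * x) * h + (V x c * (1 + c * x)) * h1

theorem V_mul {x : ℂ} (hx : Transcendental ℚ x) {c c' : ℚ} (h : c ≠ c') :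
    V x c * (V x c' * x⁻¹) =
    (((c' - c)⁻¹ : ℚ) : ℂ) * V x c' + ((-(c' - c)⁻¹ : ℚ) : ℂ) * V x c := by
  have hd : c' - c ≠ 0 := sub_ne_zero.2 h.symm
  obtain ⟨k, hk⟩ : ∃ k : ℚ, k = (c' - c)⁻¹ := ⟨_, rfl⟩
  have hk1 : k * (c' - c) = 1 := by rw [hk]; exact inv_mul_cancel₀ hd
  have hkC : (k : ℂ) * (c' - c) = 1 := by exact_mod_cast hk1
  rw [← hk]
  have h1 := V_den hx c
  have h2 := V_den hx c'
  have h3 : x * x⁻¹ = 1 := mul_inv_cancel₀ (x_ne hx)
  apply mul_left_cancel₀ (mul_ne_zero (x_ne hx) (mul_ne_zero (den_ne hx c) (den_ne hx c')))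
  push_cast
  linear_combination (V x c' * (1 + c' * x) + k * x * (1 + c' * x)) * h1 +
    (-x ^ 2 - k * x * (1 + c * x)) * h2 +
    (V x c * (1 + c * x) * (V x c' * (1 + c' * x))) * h3 - x ^ 4 * hkC

theorem V_pair {x : ℂ} (hx : Transcendental ℚ x) {c c' : ℚ} (h : c ≠ c') {s t : ℚ}
    (hst : (s : ℂ) * V x c + t * V x c' = 0) : s = 0 ∧ t = 0 := by
  have hd : c' - c ≠ 0 := sub_ne_zero.2 h.symm
  have h1 := V_den hx c
  have h2 := V_den hx c'
  have h3 : x ^ 2 * (((s * c' + t * c : ℚ) : ℂ) * x + ((s + t : ℚ) : ℂ)) = 0 := by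
    push_cast
    linear_combination (-(1 + c * x) * (1 + c' * x)) * hst + s * (1 + c' * x) * h1 +
      t * (1 + c * x) * h2
  obtain ⟨h4, h5⟩ := lin hx ((mul_eq_zero.1 h3).resolve_left (pow_ne_zero 2 (x_ne hx)))
  constructor
  · have : s * (c' - c) = 0 := by linear_combination h4 - c * h5
    exact (mul_eq_zero.1 this).resolve_right hd
  · have : t * (c' - c) = 0 := by linear_combination c' * h5 - h4
    exact (mul_eq_zero.1 this).resolve_right hd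

theorem x_V_pair {x : ℂ} (hx : Transcendental ℚ x) {c s t : ℚ}
    (hst : (s : ℂ) * x + t * V x c = 0) : s = 0 ∧ t = 0 := by
  have h1 := V_den hx c
  have h3 : x * (((s * c - t : ℚ) : ℂ) * x + ((s : ℚ) : ℂ)) = 0 := by
    push_cast
    linear_combination (1 + c * x) * hst - t * h1
  obtain ⟨h4, h5⟩ := lin hx ((mul_eq_zero.1 h3).resolve_left (x_ne hx))
  refine ⟨h5, ?_⟩
  rw [h5] at h4
  linarith

theorem x_V_V {x : ℂ} (hx : Transcendental ℚ x) {c c' : ℚ} (h : c ≠ c') {r s t : ℚ}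
    (hst : (r : ℂ) * x + s * V x c + t * V x c' = 0) : r = 0 ∧ s = 0 ∧ t = 0 := by
  have h1 := V_den hx c
  have h2 := V_den hx c'
  have h3 : x * (((r * (c * c') - s * c' - t * c : ℚ) : ℂ) * x ^ 2 +
      ((r * (c + c') - s - t : ℚ) : ℂ) * x + ((r : ℚ) : ℂ)) = 0 := by
    push_cast
    linear_combination ((1 + c * x) * (1 + c' * x)) * hst - s * (1 + c' * x) * h1 -
      t * (1 + c * x) * h2
  obtain ⟨h4, h5, h6⟩ := quad hx ((mul_eq_zero.1 h3).resolve_left (x_ne hx))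
  subst h6
  have h7 : (s : ℂ) * V x c + t * V x c' = 0 := by
    push_cast at hst
    linear_combination hst
  exact ⟨rfl, V_pair hx h h7⟩

theorem V_div_ne {x : ℂ} (hx : Transcendental ℚ x) (c q : ℚ) : V x c * x⁻¹ ≠ q := by
  intro h
  have h1 : (((0 : ℚ) - q : ℚ) : ℂ) * x + ((1 : ℚ) : ℂ) * V x c = 0 := by
    have h2 : V x c = q * x := by
      rw [← h, mul_assoc, inv_mul_cancel₀ (x_ne hx), mul_one]
    rw [h2]; push_cast; ring
  exact one_ne_zero (x_V_pair hx h1).2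

theorem inv_ne {x : ℂ} (hx : Transcendental ℚ x) (q : ℚ) : x⁻¹ ≠ q := by
  intro h
  have h1 : (((q : ℚ) : ℂ)) * x + ((-1 : ℚ) : ℂ) = 0 := by
    rw [← h, inv_mul_cancel₀ (x_ne hx)]; push_cast; ring
  have := (lin hx h1).2
  norm_num at this

/-- combinations of two exponents -/
theorem comb2 {θ u v : ℂ} (hu : AlgOver θ (exp u)) (hv : AlgOver θ (exp v))
    (α β : ℚ) : AlgOver θ (exp (α * u + β * v)) :=
  (hu.exp_rat α).exp_add (hv.exp_rat β)

theorem sq_one {θ x : ℂ} (hθ : Transcendental ℚ θ) (hx : Transcendental ℚ x) (hθx : AlgOver θ x)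
    (hex : IsAlgebraic ℚ (exp x)) {c c' : ℚ} (h : c ≠ c') (h1 : IsAlgebraic ℚ (exp (V x c)))
    (h2 : AlgOver θ (exp (V x c'))) : False := by
  refine bw hθ (z₁ := x) (z₂ := V x c) (g := V x c' * x⁻¹) hθx (V_al hθx c)
    ((V_al hθx c').mul hθx.inv) (fun s t hst => x_V_pair hx hst) (V_div_ne hx c') hex h1 ?_ ?_
  · have e : x * (V x c' * x⁻¹) = V x c' := by
      rw [mul_comm (V x c'), ← mul_assoc, mul_inv_cancel₀ (x_ne hx), one_mul]
    rw [e]; exact h2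
  · rw [V_mul hx h]
    exact comb2 h2 (AlgOver.of_alg h1) _ _

theorem sq_two {θ x : ℂ} (hθ : Transcendental ℚ θ) (hx : Transcendental ℚ x) (hθx : AlgOver θ x)
    (hex : IsAlgebraic ℚ (exp x)) {c c' c'' : ℚ} (h : c ≠ c') (h' : c ≠ c'') (h'' : c' ≠ c'')
    (h1 : AlgOver θ (exp (V x c))) (h2 : AlgOver θ (exp (V x c')))
    (h3 : AlgOver θ (exp (V x c''))) : False := by
  refine gel hθ (z₁ := x) (z₂ := V x c') (z₃ := V x c'') (g := V x c * x⁻¹) hθx (V_al hθx c')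
    (V_al hθx c'') ((V_al hθx c).mul hθx.inv) (fun r s t hst => x_V_V hx h'' hst)
    (V_div_ne hx c) (AlgOver.of_alg hex) h2 h3 ?_ ?_ ?_
  · have e : x * (V x c * x⁻¹) = V x c := by
      rw [mul_comm (V x c), ← mul_assoc, mul_inv_cancel₀ (x_ne hx), one_mul]
    rw [e]; exact h1
  · rw [V_mul hx h.symm]
    exact comb2 h1 h2 _ _
  · rw [V_mul hx h'.symm]
    exact comb2 h1 h3 _ _

theorem sq_three {θ x : ℂ} (hθ : Transcendental ℚ θ) (hx : Transcendental ℚ x) (hθx : AlgOver θ x)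
    (hex : IsAlgebraic ℚ (exp x)) (he : AlgOver θ (exp 1)) {c : ℚ}
    (h1 : IsAlgebraic ℚ (exp (V x c))) : False := by
  refine bw hθ (z₁ := x) (z₂ := V x c) (g := x⁻¹) hθx (V_al hθx c) hθx.inv
    (fun s t hst => x_V_pair hx hst) (inv_ne hx) hex h1 ?_ ?_
  · rw [mul_inv_cancel₀ (x_ne hx)]; exact he
  · rw [V_div hx]
    exact comb2 (AlgOver.of_alg hex) (AlgOver.of_alg h1) _ _

theorem sq_four {θ x : ℂ} (hθ : Transcendental ℚ θ) (hx : Transcendental ℚ x) (hθx : AlgOver θ x)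
    (hex : IsAlgebraic ℚ (exp x)) (he : AlgOver θ (exp 1)) {c c' : ℚ} (h : c ≠ c')
    (h1 : AlgOver θ (exp (V x c))) (h2 : AlgOver θ (exp (V x c'))) : False := by
  refine gel hθ (z₁ := x) (z₂ := V x c) (z₃ := V x c') (g := x⁻¹) hθx (V_al hθx c) (V_al hθx c')
    hθx.inv (fun r s t hst => x_V_V hx h hst) (inv_ne hx) (AlgOver.of_alg hex) h1 h2 ?_ ?_ ?_
  · rw [mul_inv_cancel₀ (x_ne hx)]; exact he
  · rw [V_div hx]; exact comb2 (AlgOver.of_alg hex) h1 _ _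
  · rw [V_div hx]; exact comb2 (AlgOver.of_alg hex) h2 _ _

end Pool.Agent.Helper305_BW
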